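import Pool.Agent.helper96.PP2.SpecC

/-!
# Row pg:FIT (MP_655a6f_al): `p N` has finite index in `N`
-/

set_option autoImplicit false

namespace Pool.Agent.PP2

open Topology Matrix

theorem FIT_pi {R : Type} [CommRing R] [TopologicalSpace R]
    (hb : ∀ U ∈ 𝓝 (0 : R), ∃ I : Ideal R, IsOpen (I : Set R) ∧ (I : Set R) ⊆ U)
    {ι : Type} [Finite ι] {W : Set (ι → R)} (hW : W ∈ 𝓝 (0 : ι → R)) :
    ∃ I : Ideal R, IsOpen (I : Set R) ∧ ∀ Y : ι → R, (∀ i, Y i ∈ I) → Y ∈ W := by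
  rw [nhds_pi, Filter.mem_pi] at hW
  obtain ⟨s, hs, t, ht, hsub⟩ := hW
  choose I hI1 hI2 using fun i => hb (t i) (ht i)
  refine ⟨⨅ i, I i, ?_, fun Y hY => hsub fun i _ => hI2 i ?_⟩
  · rw [Submodule.coe_iInf]
    exact isOpen_iInter_of_finite hI1
  · exact (Submodule.mem_iInf _).1 (hY i) i

theorem FIT_mat {R : Type} [CommRing R] [TopologicalSpace R]
    (hb : ∀ U ∈ 𝓝 (0 : R), ∃ I : Ideal R, IsOpen (I : Set R) ∧ (I : Set R) ⊆ U)
    {W : Set (M2 R)} (hW : W ∈ 𝓝 (0 : M2 R)) :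
    ∃ I : Ideal R, IsOpen (I : Set R) ∧ ∀ Y : M2 R, (∀ i j, Y i j ∈ I) → Y ∈ W := by
  let Φ : (Fin 2 × Fin 2 → R) → M2 R := fun Y => Matrix.of fun i j => Y (i, j)
  have hΦ : Continuous Φ := continuous_matrix fun i j => continuous_apply (i, j)
  have h0 : Φ 0 = 0 := rfl
  have h1 : Φ ⁻¹' W ∈ 𝓝 (0 : Fin 2 × Fin 2 → R) := by
    apply hΦ.continuousAt.preimage_mem_nhds
    rw [h0]
    exact hW
  obtain ⟨I, hI, hI2⟩ := FIT_pi hb h1
  exact ⟨I, hI, fun Y hY => hI2 (fun x => Y x.1 x.2) fun x => hY x.1 x.2⟩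

theorem FIT_mem {R : Type} [CommRing R] (c : R) (N : AddSubgroup (M2 R)) (X : M2 R) :
    X ∈ sN c N ↔ ∃ Y ∈ N, c • Y = X := Iff.rfl

theorem FIT_row : FIT_stmt := by
  intro p R _ _ _ _ _ J hp hp2 hS N q hN hq hqN hind
  have hqpow : ∀ j : ℕ, ∀ X ∈ N, q ^ j • X ∈ N := by
    intro j
    induction j with
    | zero => intro X hX; rw [pow_zero, one_smul]; exact hX
    | succ j ih =>
      intro X hX
      rw [pow_succ, mul_smul]
      exact ih _ (hqN X hX)
  have hpN : sN (p : R) N ≤ N := by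
    intro X hX
    obtain ⟨Y, hY, rfl⟩ := (FIT_mem _ _ _).1 hX
    rw [Nat.cast_smul_eq_nsmul]
    exact N.nsmul_mem hY p
  have hqjN : ∀ j : ℕ, sN (q ^ j) N ≤ N := by
    intro j X hX
    obtain ⟨Y, hY, rfl⟩ := (FIT_mem _ _ _).1 hX
    exact hqpow j Y hY
  -- the decreasing sequence
  let F : ℕ → AddSubgroup (M2 R) := fun j => sN (p : R) N ⊔ sN (q ^ j) N
  have hF : ∀ j, F j = sN (p : R) N ⊔ sN (q ^ j) N := fun j => rfl
  have hFN : ∀ j, F j ≤ N := fun j => sup_le hpN (hqjN j)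
  have hFs : ∀ j, F (j + 1) ≤ F j := by
    intro j
    refine sup_le_sup_left ?_ _
    intro X hX
    obtain ⟨Y, hY, rfl⟩ := (FIT_mem _ _ _).1 hX
    refine (FIT_mem _ _ _).2 ⟨q • Y, hqN Y hY, ?_⟩
    rw [pow_succ, mul_smul]
  have hF0 : F 0 = N := by
    refine le_antisymm (hFN 0) ?_
    intro X hX
    refine (le_sup_right : sN (q ^ 0) N ≤ F 0) ((FIT_mem _ _ _).2 ⟨X, hX, ?_⟩)
    rw [pow_zero, one_smul]
  have hFanti : Antitone F := antitone_nat_of_succ_le hFs
  -- a chain of proper subgroups has a large index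
  have hchain : ∀ m : ℕ, (∀ j < m, (F (j + 1)).relIndex (F j) ≠ 1) → (F m).relIndex N ≠ 0 →
      2 ^ m ≤ (F m).relIndex N := by
    intro m
    induction m with
    | zero =>
      intro _ h0
      rw [pow_zero]
      omega
    | succ m ih =>
      intro h1 h0
      have h2 := AddSubgroup.relIndex_mul_relIndex (F (m + 1)) (F m) N (hFs m) (hFN m)
      rw [← h2] at h0 ⊢
      have h3 : (F (m + 1)).relIndex (F m) ≠ 0 := left_ne_zero_of_mul h0
      have h4 : (F m).relIndex N ≠ 0 := right_ne_zero_of_mul h0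
      have h5 := ih (fun j hj => h1 j (by omega)) h4
      have h6 := h1 m (by omega)
      rw [pow_succ, mul_comm]
      exact Nat.mul_le_mul (by omega) h5
  -- the exponent
  obtain ⟨hm0, hmle⟩ := hind 3
  set m : ℕ := (p ^ 3 - 1) / 2 with hm
  have hlt : p ^ (2 * 3) < 2 ^ m := by
    have hp3 : 3 ≤ p := by
      have := hp.two_le
      omega
    rcases Nat.lt_or_ge p 4 with h | h
    · have : p = 3 := by omega
      rw [hm, this]
      norm_num
    · have h1 : p < 2 ^ p := Nat.lt_two_pow_self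
      have h2 : p ^ (2 * 3) < (2 ^ p) ^ (2 * 3) := Nat.pow_lt_pow_left h1 (by norm_num)
      have h3 : (2 ^ p) ^ (2 * 3) ≤ 2 ^ m := by
        rw [← pow_mul]
        apply Nat.pow_le_pow_right (by norm_num)
        have h4 : 16 * p ≤ p ^ 3 := by
          calc 16 * p ≤ p ^ 2 * p := Nat.mul_le_mul_right _ (by nlinarith)
            _ = p ^ 3 := by ring
        omega
      exact lt_of_lt_of_le h2 h3
  have hex : ∃ j < m, (F (j + 1)).relIndex (F j) = 1 := by
    by_contra hcon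
    push Not at hcon
    have := hchain m hcon hm0
    have h2 : (F m).relIndex N ≤ p ^ (2 * 3) := hmle
    omega
  obtain ⟨j, hjm, hj⟩ := hex
  rw [AddSubgroup.relIndex_eq_one] at hj
  -- iteration
  have hstep : ∀ X ∈ N, ∃ A ∈ N, ∃ B ∈ N, q ^ j • X = (p : R) • A + q ^ (j + 1) • B := by
    intro X hX
    have h1 : q ^ j • X ∈ F (j + 1) :=
      hj ((le_sup_right : sN (q ^ j) N ≤ F j) ((FIT_mem _ _ _).2 ⟨X, hX, rfl⟩))
    obtain ⟨Y, hY, Z, hZ, hYZ⟩ := AddSubgroup.mem_sup.1 h1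
    obtain ⟨A, hA, rfl⟩ := (FIT_mem _ _ _).1 hY
    obtain ⟨B, hB, rfl⟩ := (FIT_mem _ _ _).1 hZ
    exact ⟨A, hA, B, hB, hYZ.symm⟩
  have hiter : ∀ i : ℕ, ∀ X ∈ N, ∃ A ∈ N, ∃ B ∈ N, q ^ j • X = (p : R) • A + q ^ (j + i) • B := by
    intro i
    induction i with
    | zero =>
      intro X hX
      exact ⟨0, N.zero_mem, X, hX, by rw [smul_zero, zero_add, add_zero]⟩
    | succ i ih =>
      intro X hX
      obtain ⟨A, hA, B, hB, h1⟩ := ih X hX
      obtain ⟨A', hA', B', hB', h2⟩ := hstep B hB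
      refine ⟨A + q ^ i • A', N.add_mem hA (hqpow i A' hA'), B', hB', ?_⟩
      have h3 : q ^ (j + i) • B = q ^ i • (q ^ j • B) := by
        rw [← mul_smul, ← pow_add, add_comm]
      have h4 : q ^ (j + (i + 1)) • B' = q ^ i • (q ^ (j + 1) • B') := by
        rw [← mul_smul, ← pow_add]
        have : j + (i + 1) = i + (j + 1) := by omega
        rw [this]
      rw [h1, h3, h2, h4, smul_add, smul_add, smul_comm (q ^ i) (p : R) A', add_assoc]
  -- `p N` is closed
  have hMc : CompactSpace (M2 R) := inferInstanceAs (CompactSpace (Fin 2 → Fin 2 → R))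
  have hMt : T2Space (M2 R) := inferInstanceAs (T2Space (Fin 2 → Fin 2 → R))
  have hpc : IsClosed (sN (p : R) N : Set (M2 R)) := by
    have h1 : (sN (p : R) N : Set (M2 R)) = (fun X : M2 R => (p : R) • X) '' (N : Set (M2 R)) := rfl
    rw [h1]
    exact (hN.isCompact.image (continuous_const_smul (p : R))).isClosed
  have hqj : sN (q ^ j) N ≤ sN (p : R) N := by
    intro X hX
    obtain ⟨Y, hY, rfl⟩ := (FIT_mem _ _ _).1 hX
    have h1 : q ^ j • Y ∈ closure (sN (p : R) N : Set (M2 R)) := by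
      rw [mem_closure_iff_nhds]
      intro V hV
      have h2 : (fun Z : M2 R => q ^ j • Y - Z) ⁻¹' V ∈ 𝓝 (0 : M2 R) := by
        apply (continuous_const.sub continuous_id).continuousAt.preimage_mem_nhds
        simpa using hV
      obtain ⟨I, hI, hIV⟩ := FIT_mat hS.basis h2
      obtain ⟨n, hn⟩ := hS.nil I hI
      obtain ⟨A, hA, B, hB, h3⟩ := hiter n Y hY
      have h4 : q ^ j • Y - q ^ (j + n) • B ∈ V := by
        apply hIV
        intro a b
        rw [Matrix.smul_apply, smul_eq_mul]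
        apply I.mul_mem_right
        rw [pow_add]
        exact I.mul_mem_left _ (hn (Ideal.pow_mem_pow hq n))
      refine ⟨_, h4, ?_⟩
      have h5 : q ^ j • Y - q ^ (j + n) • B = (p : R) • A := by rw [h3]; abel
      rw [h5]
      exact (FIT_mem _ _ _).2 ⟨A, hA, rfl⟩
    rw [hpc.closure_eq] at h1
    exact h1
  have hFj : F j = sN (p : R) N := by
    rw [hF]
    exact sup_eq_left.2 hqj
  have hdvd := AddSubgroup.relIndex_dvd_of_le_left N (hFanti hjm.le)
  rw [hFj] at hdvd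
  intro h0
  rw [h0, zero_dvd_iff] at hdvd
  exact hm0 hdvd

end Pool.Agent.PP2
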