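import Pool.Agent.helper96.PP2.SpecC

/-!
# Row pg:IDL (MP_655a6f_al): open ideals form a basis at zero in a profinite commutative ring
-/

set_option autoImplicit false

namespace Pool.Agent.PP2

open Topology Matrix

theorem IDL_row : IDL_stmt := by
  intro R _ _ _ _ _ _ U hU
  obtain ⟨U', hU'U, hU'o, h0⟩ := mem_nhds_iff.1 hU
  obtain ⟨V, hV⟩ := ProfiniteGrp.exist_openNormalAddSubgroup_sub_open_nhds_of_zero hU'o h0
  have hVm : ∀ x : R, x ∈ V.toAddSubgroup ↔ x ∈ (V : Set R) := fun x => Iff.rfl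
  have hVo : IsOpen (V.toAddSubgroup : Set R) := V.isOpen'
  let I : Ideal R :=
    { carrier := {x | ∀ r, r * x ∈ V.toAddSubgroup}
      zero_mem' := fun r => by rw [mul_zero]; exact V.toAddSubgroup.zero_mem
      add_mem' := fun {a b} ha hb r => by rw [mul_add]; exact V.toAddSubgroup.add_mem (ha r) (hb r)
      smul_mem' := fun c x hx r => by
        rw [smul_eq_mul, ← mul_assoc]
        exact hx (r * c) }
  have hI : ∀ x, x ∈ I ↔ ∀ r, r * x ∈ V.toAddSubgroup := fun x => Iff.rfl
  refine ⟨I, ?_, ?_⟩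
  · have h1 : IsClosed {q : R × R | q.1 * q.2 ∉ V.toAddSubgroup} := by
      have h2 : IsOpen {q : R × R | q.1 * q.2 ∈ V.toAddSubgroup} :=
        hVo.preimage (continuous_fst.mul continuous_snd)
      exact h2.isClosed_compl
    have h2 := isClosedMap_snd_of_compactSpace (X := R) (Y := R) _ h1
    rw [← isClosed_compl_iff]
    have h3 : ((I : Set R))ᶜ = Prod.snd '' {q : R × R | q.1 * q.2 ∉ V.toAddSubgroup} := by
      ext x
      simp only [Set.mem_compl_iff, SetLike.mem_coe, Set.mem_image, Set.mem_ofPred_eq, Prod.exists,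
        exists_eq_right, hI, not_forall]
    rw [h3]
    exact h2
  · intro x hx
    have h1 := (hI x).1 hx 1
    rw [one_mul] at h1
    exact hU'U (hV ((hVm x).1 h1))

end Pool.Agent.PP2
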